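import Mathlib

namespace Pool.Agent.Results.MP_ef9ba3_an.Strip

abbrev E (n : ℕ) := EuclideanSpace ℝ (Fin n)

/-- the set of elements consistent with the data. -/
def Cons (P : E 2 →ₗ[ℝ] E 2) (Λ : E 2 →ₗ[ℝ] E 1) (ε η : ℝ) (y : E 1) : Set (E 2) :=
  {f | ‖P f‖ ≤ ε ∧ ‖y - Λ f‖ ≤ η}

/-- `z` minimises `sup_{f ∈ K} ‖f - z‖`. -/
def IsCenter (K : Set (E 2)) (z : E 2) : Prop :=
  ∀ w, sSup ((fun f => ‖f - z‖) '' K) ≤ sSup ((fun f => ‖f - w‖) '' K)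

noncomputable def F (P : E 2 →ₗ[ℝ] E 2) (Λ : E 2 →ₗ[ℝ] E 1) (y : E 1) (τ : ℝ) (f : E 2) : ℝ :=
  (1 - τ) * ‖P f‖ ^ 2 + τ * ‖y - Λ f‖ ^ 2

theorem result : ∃ (P : E 2 →ₗ[ℝ] E 2) (Λ : E 2 →ₗ[ℝ] E 1) (ε η : ℝ) (y : E 1),
    0 < ε ∧ 0 < η ∧ LinearMap.ker P ⊓ LinearMap.ker Λ = ⊥ ∧ (Cons P Λ ε η y).Nonempty ∧
    (∃! z, IsCenter (Cons P Λ ε η y) z) ∧
    ∀ z, IsCenter (Cons P Λ ε η y) z → ∀ τ ∈ Set.Icc (0 : ℝ) 1, ∃ f, F P Λ y τ f < F P Λ y τ z := by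
  obtain ⟨P, hP⟩ : ∃ P : E 2 →ₗ[ℝ] E 2, ∀ f, ‖P f‖ ^ 2 = (f 0 - f 1 / 6) ^ 2 + (2 * f 1 / 3) ^ 2 :=
    ⟨Matrix.toLpLin 2 2 !![1, -1 / 6; 0, 2 / 3], fun f => by
      simp [EuclideanSpace.real_norm_sq_eq, Fin.sum_univ_two, Matrix.toLpLin_apply, Matrix.mulVec,
        dotProduct]
      ring⟩
  obtain ⟨Λ, y, hΛ⟩ : ∃ (Λ : E 2 →ₗ[ℝ] E 1) (y : E 1), ∀ f, ‖y - Λ f‖ ^ 2 = (3 / 5 - f 1) ^ 2 :=
    ⟨Matrix.toLpLin 2 2 !![0, 1], !₂[3 / 5], fun f => by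
      simp [EuclideanSpace.real_norm_sq_eq, Matrix.toLpLin_apply, Matrix.mulVec, dotProduct]⟩
  have hd : ∀ f w : E 2, ‖f - w‖ ^ 2 = (f 0 - w 0) ^ 2 + (f 1 - w 1) ^ 2 := fun f w => by
    simp [EuclideanSpace.real_norm_sq_eq, Fin.sum_univ_two]
  have hK : ∀ f, f ∈ Cons P Λ 1 (3 / 5) y ↔
      (f 0 - f 1 / 6) ^ 2 + (2 * f 1 / 3) ^ 2 ≤ 1 ∧ (3 / 5 - f 1) ^ 2 ≤ (3 / 5) ^ 2 := fun f => by
    rw [← hP, ← hΛ, sq_le_one_iff₀ (norm_nonneg _), sq_le_sq₀ (norm_nonneg _) (by norm_num)]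
    rfl
  set K := Cons P Λ 1 (3 / 5) y
  have c1 : !₂[-1, 0] ∈ K := by rw [hK]; simp
  have c2 : !₂[1, 0] ∈ K := by rw [hK]; simp
  have c3 : !₂[4 / 5, 6 / 5] ∈ K := by rw [hK]; simp; norm_num
  set z : E 2 := !₂[0, 9 / 20]
  have z0 : z 0 = 0 := rfl
  have z1 : z 1 = 9 / 20 := rfl
  have hz : ∀ f ∈ K, ‖f - z‖ ≤ √(481 / 400) := fun f hf => by
    refine Real.le_sqrt_of_sq_le ?_
    obtain ⟨h1, h2⟩ := (hK f).1 hf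
    have h3 : 0 ≤ f 1 := by nlinarith
    have h4 : 0 ≤ 1 - 3 / 5 * (f 0 - f 1 / 6) - 4 / 5 * (2 * f 1 / 3) := by
      nlinarith [sq_nonneg (f 0 - f 1 / 6 - 3 / 5), sq_nonneg (2 * f 1 / 3 - 4 / 5)]
    rw [hd, z0, z1]
    nlinarith [mul_nonneg h3 h4]
  have up : sSup ((fun f => ‖f - z‖) '' K) ≤ √(481 / 400) :=
    Real.sSup_le (by rintro _ ⟨f, hf, rfl⟩; exact hz f hf) (Real.sqrt_nonneg _)
  have lo : ∀ w, 481 / 400 + ‖w - z‖ ^ 2 ≤ sSup ((fun f => ‖f - w‖) '' K) ^ 2 ∧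
      0 ≤ sSup ((fun f => ‖f - w‖) '' K) := fun w => by
    have hb : BddAbove ((fun f => ‖f - w‖) '' K) := ⟨√(481 / 400) + ‖z - w‖, by
      rintro _ ⟨f, hf, rfl⟩
      exact (norm_sub_le_norm_sub_add_norm_sub f z w).trans (by linarith [hz f hf])⟩
    have h : ∀ f ∈ K, ‖f - w‖ ^ 2 ≤ sSup ((fun f => ‖f - w‖) '' K) ^ 2 := fun f hf =>
      pow_le_pow_left₀ (norm_nonneg _) (le_csSup hb ⟨f, hf, rfl⟩) 2
    refine ⟨?_, (norm_nonneg _).trans (le_csSup hb ⟨_, c1, rfl⟩)⟩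
    have h1 := h _ c1
    have h2 := h _ c2
    have h3 := h _ c3
    rw [hd] at h1 h2 h3 ⊢
    rw [z0, z1]
    simp at h1 h2 h3
    nlinarith
  have cz : IsCenter K z := fun w => up.trans (Real.sqrt_le_iff.2 ⟨(lo w).2, by
    nlinarith [(lo w).1, sq_nonneg ‖w - z‖]⟩)
  have uq : ∀ w, IsCenter K w → w = z := fun w hw => by
    have h1 := pow_le_pow_left₀ (lo w).2 ((hw z).trans up) 2
    rw [Real.sq_sqrt (by norm_num)] at h1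
    have h2 : ‖w - z‖ ^ 2 = 0 := le_antisymm (by linarith [(lo w).1]) (sq_nonneg _)
    simpa [sub_eq_zero] using h2
  refine ⟨P, Λ, 1, 3 / 5, y, one_pos, by norm_num, ?_, ⟨_, c1⟩, ⟨z, cz, uq⟩, fun w hw τ hτ => ?_⟩
  · rw [eq_bot_iff]
    rintro f ⟨hf, -⟩
    have h := hP f
    rw [show P f = 0 from hf] at h
    simp only [norm_zero] at h
    have h1 : f 1 = 0 := by nlinarith [sq_nonneg (f 0 - f 1 / 6), sq_nonneg (f 1)]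
    have h0 : f 0 = 0 := by rw [h1] at h; nlinarith [sq_nonneg (f 0)]
    rw [Submodule.mem_bot]
    ext i; fin_cases i <;> simp [h0, h1]
  · rw [uq w hw]
    rcases hτ.2.eq_or_lt with rfl | h
    · exact ⟨!₂[0, 3 / 5], by simp only [F, hP, hΛ, z0, z1]; simp; norm_num⟩
    · refine ⟨!₂[3 / 40, 9 / 20], ?_⟩
      simp only [F, hP, hΛ, z0, z1]
      simp
      nlinarith

end Pool.Agent.Results.MP_ef9ba3_an.Strip
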